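import Pool.Agent.Helper58.Robin.Main

/-!
# Among triangles of given area the equilateral one maximises the lowest Robin eigenvalue, `α < 0`
-/

open MeasureTheory Pool.Agent.Helper58.Robin

namespace Pool.Agent.Results.MP_2a4334_an.EquilateralMaximizesRobin

/-- For every `α < 0`, every nondegenerate triangle `T` with vertices `a b c` and every equilateral
triangle `E` with vertices `e f g` of the same area, both sets of Rayleigh quotients are nonempty
and bounded from below, and the lowest Robin eigenvalue of `T` is at most that of `E`. -/
theorem result : ∀ α : ℝ, α < 0 → ∀ a b c e f g : EuclideanSpace ℝ (Fin 2),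
    0 < volume (convexHull ℝ {a, b, c}) →
    volume (convexHull ℝ {a, b, c}) = volume (convexHull ℝ {e, f, g}) →
    dist e f = dist f g → dist f g = dist g e →
    ((robinQuotients α a b c).Nonempty ∧ BddBelow (robinQuotients α a b c)) ∧
    ((robinQuotients α e f g).Nonempty ∧ BddBelow (robinQuotients α e f g)) ∧
    robinEigenvalue α a b c ≤ robinEigenvalue α e f g :=
  main

end Pool.Agent.Results.MP_2a4334_an.EquilateralMaximizesRobin
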